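import Pool.Agent.helper43.TG.Spec

/-!
# Row tg:STP (MP_facb47_co): one step of the colouring argument
-/

namespace Pool.Agent.helper43.TG

open Pool.Agent.helper70.Sachs (IsPacking touchingGraph chi)
open scoped RealInnerProductSpace

section
variable {V : Type} [Fintype V] [DecidableEq V] (G : SimpleGraph V) [DecidableRel G.Adj]

private theorem STP_anti (k : ℕ) {S S' : Finset V} (h : S ⊆ S') (c : V → Fin k) (u : V) :
    free G k S' c u ⊆ free G k S c u := by
  intro g hg
  unfold free at hg ⊢
  rw [Finset.mem_filter] at hg ⊢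
  exact ⟨hg.1, fun y hy hyu => hg.2 y (h hy) hyu⟩

/-- the inequality for one colouring -/
private theorem STP_one (k h : ℕ) (S U B : Finset V) (v : V)
    (hN : ∀ y ∈ S, G.Adj v y → y ∈ U ∨ y ∈ B) (c : V → Fin k) :
    (Finset.univ.filter (fun g : Fin k => ∀ u ∈ U, 3 * h + 2 < (free G k (S \ U) c u).card → c u ≠ g)).card ≤
      (free G k S c v).card + ((U.filter (fun u => (free G k (S \ U) c u).card ≤ 3 * h + 2)).card + B.card) := by
  have hsub : (Finset.univ.filter (fun g : Fin k => ∀ u ∈ U, 3 * h + 2 < (free G k (S \ U) c u).card → c u ≠ g)) ⊆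
      free G k S c v ∪ ((U.filter (fun u => (free G k (S \ U) c u).card ≤ 3 * h + 2)).image c ∪ B.image c) := by
    intro g hg
    rw [Finset.mem_filter] at hg
    rw [Finset.mem_union, Finset.mem_union, Finset.mem_image, Finset.mem_image]
    by_cases hgf : g ∈ free G k S c v
    · exact Or.inl hgf
    · right
      unfold free at hgf
      rw [Finset.mem_filter] at hgf
      push Not at hgf
      obtain ⟨y, hyS, hvy, hcy⟩ := hgf (Finset.mem_univ g)
      rcases hN y hyS hvy with hy | hy
      · left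
        refine ⟨y, ?_, hcy⟩
        rw [Finset.mem_filter]
        refine ⟨hy, ?_⟩
        by_contra hcon
        exact hg.2 y hy (not_le.1 hcon) hcy
      · exact Or.inr ⟨y, hy, hcy⟩
  refine (Finset.card_le_card hsub).trans ((Finset.card_union_le _ _).trans ?_)
  refine Nat.add_le_add_left ((Finset.card_union_le _ _).trans ?_) _
  exact Nat.add_le_add Finset.card_image_le Finset.card_image_le

end

theorem t_stp (hu : UPD) (hf : FEW) (hh : HYB) (hj : JEN) : STP := by
  intro V _ _ G _ k h S U B v Δ l hk hl hvS hUS hN hUΔ hUh hprop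
  have hkr : (0 : ℝ) < k := by exact_mod_cast hk
  have hΔ0 : 0 ≤ Δ := (Nat.cast_nonneg _).trans hUΔ
  obtain ⟨P, hP⟩ : ∃ P : ℝ, P = ((prop G k S).card : ℝ) := ⟨_, rfl⟩
  have hP0 : 0 ≤ P := by rw [hP]; exact Nat.cast_nonneg _
  rw [← hP]
  -- the number of extensions
  have e1 : (k : ℝ) * ((prop G k (insert v S)).card : ℝ) =
      ∑ c ∈ prop G k S, ((free G k S c v).card : ℝ) := by
    have h1 := hu V G k S v (fun _ => (1 : ℝ)) hvS
    simp only [Finset.sum_const, nsmul_eq_mul, mul_one] at h1
    exact h1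
  rw [e1]
  -- (a)
  have ha : P * ((k : ℝ) * Real.exp (-(2 * Δ) / k)) ≤ ∑ c ∈ prop G k S,
      ((Finset.univ.filter (fun g : Fin k => ∀ u ∈ U, 3 * h + 2 < (free G k (S \ U) c u).card → c u ≠ g)).card : ℝ) := by
    have h1 : ∑ c ∈ prop G k S,
        ((Finset.univ.filter (fun g : Fin k => ∀ u ∈ U, 3 * h + 2 < (free G k (S \ U) c u).card → c u ≠ g)).card : ℝ) =
        ∑ g : Fin k, (((prop G k S).filter
          (fun c => ∀ u ∈ U, 3 * h + 2 < (free G k (S \ U) c u).card → c u ≠ g)).card : ℝ) := by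
      simp only [Finset.card_filter, Nat.cast_sum]
      exact Finset.sum_comm
    rw [h1]
    have h2 : ∑ g : Fin k, ∑ c ∈ prop G k S, ∏ u ∈ U,
        (if 3 * h + 2 < (free G k (S \ U) c u).card ∧ g ∈ free G k (S \ U) c u
          then (1 - 1 / (((free G k (S \ U) c u).card : ℝ) - h)) else 1) ≤
        ∑ g : Fin k, (((prop G k S).filter
          (fun c => ∀ u ∈ U, 3 * h + 2 < (free G k (S \ U) c u).card → c u ≠ g)).card : ℝ) :=
      Finset.sum_le_sum fun g _ => hh V G k h (3 * h + 2) S U g hUS (by omega) hUh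
    refine le_trans ?_ h2
    rw [Finset.sum_comm]
    have h3 : P * ((k : ℝ) * Real.exp (-(2 * Δ) / k)) = ∑ c ∈ prop G k S, (k : ℝ) * Real.exp (-(2 * Δ) / k) := by
      rw [Finset.sum_const, nsmul_eq_mul, hP]
    rw [h3]
    refine Finset.sum_le_sum fun c _ => ?_
    have h4 := hj V k h (U.filter (fun u => 3 * h + 2 < (free G k (S \ U) c u).card))
      (fun u => free G k (S \ U) c u) hk (by
        intro u hu'
        rw [Finset.mem_filter] at hu'
        have := hu'.2
        omega)
    have h5 : ∑ g : Fin k, ∏ u ∈ U.filter (fun u => 3 * h + 2 < (free G k (S \ U) c u).card),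
        (if g ∈ free G k (S \ U) c u then (1 - 1 / (((free G k (S \ U) c u).card : ℝ) - h)) else 1) =
        ∑ g : Fin k, ∏ u ∈ U, (if 3 * h + 2 < (free G k (S \ U) c u).card ∧ g ∈ free G k (S \ U) c u
          then (1 - 1 / (((free G k (S \ U) c u).card : ℝ) - h)) else 1) := by
      refine Finset.sum_congr rfl fun g _ => ?_
      rw [Finset.prod_filter]
      refine Finset.prod_congr rfl fun u _ => ?_
      rw [ite_and]
    rw [← h5]
    refine le_trans ?_ h4
    refine mul_le_mul_of_nonneg_left ?_ hkr.le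
    rw [Real.exp_le_exp]
    refine div_le_div_of_nonneg_right ?_ hkr.le
    have h6 : ((U.filter (fun u => 3 * h + 2 < (free G k (S \ U) c u).card)).card : ℝ) ≤ (U.card : ℝ) := by
      exact_mod_cast Finset.card_filter_le _ _
    linarith
  -- (b)
  have hb : ∑ c ∈ prop G k S, ((U.filter (fun u => (free G k (S \ U) c u).card ≤ 3 * h + 2)).card : ℝ) ≤
      P * (Δ * (3 * h + 2) / l) := by
    have h1 : ∑ c ∈ prop G k S, ((U.filter (fun u => (free G k (S \ U) c u).card ≤ 3 * h + 2)).card : ℝ) =
        ∑ u ∈ U, (((prop G k S).filter (fun c => (free G k (S \ U) c u).card ≤ 3 * h + 2)).card : ℝ) := by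
      simp only [Finset.card_filter, Nat.cast_sum]
      exact Finset.sum_comm
    rw [h1]
    have h2 : ∀ u ∈ U, (((prop G k S).filter (fun c => (free G k (S \ U) c u).card ≤ 3 * h + 2)).card : ℝ) ≤
        (3 * h + 2) / l * P := by
      intro u huU
      have huS : u ∈ S := hUS huU
      have h3 := hf V G k (3 * h + 2) (S.erase u) u (Finset.notMem_erase u S)
      rw [Finset.insert_erase huS] at h3
      have h4 : (((prop G k S).filter (fun c => (free G k (S \ U) c u).card ≤ 3 * h + 2)).card : ℝ) ≤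
          (((prop G k S).filter (fun c => (free G k (S.erase u) c u).card ≤ 3 * h + 2)).card : ℝ) := by
        have : ((prop G k S).filter (fun c => (free G k (S \ U) c u).card ≤ 3 * h + 2)) ⊆
            ((prop G k S).filter (fun c => (free G k (S.erase u) c u).card ≤ 3 * h + 2)) := by
          intro c hc
          rw [Finset.mem_filter] at hc ⊢
          refine ⟨hc.1, (Finset.card_le_card (STP_anti G k ?_ c u)).trans hc.2⟩
          intro y hy
          rw [Finset.mem_sdiff] at hy
          rw [Finset.mem_erase]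
          refine ⟨fun hyu => hy.2 (hyu ▸ huU), hy.1⟩
        exact_mod_cast Finset.card_le_card this
      refine h4.trans ?_
      have h5 := hprop u huU
      rw [← hP] at h5
      push_cast at h3
      have h6 : ((prop G k (S.erase u)).card : ℝ) ≤ (k : ℝ) * P / l := by
        rw [le_div_iff₀ hl]
        linarith
      have h7 : (0 : ℝ) ≤ 3 * (h : ℝ) + 2 := by positivity
      have h8 : (k : ℝ) * (((prop G k S).filter
          (fun c => (free G k (S.erase u) c u).card ≤ 3 * h + 2)).card : ℝ) ≤ (k : ℝ) * ((3 * h + 2) / l * P) := by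
        calc _ ≤ (3 * (h : ℝ) + 2) * ((prop G k (S.erase u)).card : ℝ) := h3
          _ ≤ (3 * (h : ℝ) + 2) * ((k : ℝ) * P / l) := mul_le_mul_of_nonneg_left h6 h7
          _ = (k : ℝ) * ((3 * h + 2) / l * P) := by ring
      exact le_of_mul_le_mul_left h8 hkr
    refine (Finset.sum_le_sum h2).trans ?_
    rw [Finset.sum_const, nsmul_eq_mul]
    have h3 : (0 : ℝ) ≤ (3 * (h : ℝ) + 2) / l * P := by positivity
    calc (U.card : ℝ) * ((3 * (h : ℝ) + 2) / l * P) ≤ Δ * ((3 * (h : ℝ) + 2) / l * P) :=
          mul_le_mul_of_nonneg_right hUΔ h3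
      _ = P * (Δ * (3 * h + 2) / l) := by ring
  -- sum over all colourings
  have hsum : ∑ c ∈ prop G k S,
      ((Finset.univ.filter (fun g : Fin k => ∀ u ∈ U, 3 * h + 2 < (free G k (S \ U) c u).card → c u ≠ g)).card : ℝ) ≤
      ∑ c ∈ prop G k S, ((free G k S c v).card : ℝ) +
        (∑ c ∈ prop G k S, ((U.filter (fun u => (free G k (S \ U) c u).card ≤ 3 * h + 2)).card : ℝ) +
          P * (B.card : ℝ)) := by
    have h1 : P * (B.card : ℝ) = ∑ c ∈ prop G k S, (B.card : ℝ) := by
      rw [Finset.sum_const, nsmul_eq_mul, hP]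
    rw [h1, ← Finset.sum_add_distrib, ← Finset.sum_add_distrib]
    refine Finset.sum_le_sum fun c _ => ?_
    exact_mod_cast STP_one G k h S U B v hN c
  have hfin : P * ((k : ℝ) * Real.exp (-(2 * Δ) / k) - (B.card : ℝ) - Δ * (3 * h + 2) / l) =
      P * ((k : ℝ) * Real.exp (-(2 * Δ) / k)) - P * (B.card : ℝ) - P * (Δ * (3 * h + 2) / l) := by ring
  rw [hfin]
  linarith

end Pool.Agent.helper43.TG
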